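import Mathlib
import Pool.Agent.KS6_59.CP.Mono
import Pool.Graph.R_seed8.Results.MP_e70507_gt.DenseSigmaCompactFactor

/-!
# Compact subspaces of `C_p(X × Y)`: tightness, weight and the Frechet-Urysohn property

The questions ask for countable tightness and the Frechet-Urysohn property of the compact
subspaces of `C_p(X × K)`, `K` compact. Here a cardinal `τ ≥ ℵ₀` is represented by an infinite
type `I` (`τ = |I|`). The factor `Y` has a dense subspace which is the union of at most `τ`
compact sets. Three properties pass from `C_p(X)` to `C_p(X × Y)`: all compact subspaces have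
tightness at most `τ`; all compact subspaces of density at most `τ` have weight at most `τ`; and,
for countable `τ`, all compact subspaces are Frechet-Urysohn. For metrizable `Y` this condition on
`Y` (which then says that the density of `Y` is at most `τ`) is also necessary, for each of the
three properties.
-/

set_option autoImplicit false
open Set Function Topology Filter TopologicalSpace

namespace Pool.Agent.Results.MP_e70507_gt.AllCardinals
universe u v w

/-- `Cp X` is the set of continuous real functions on `X` with the topology of pointwise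
convergence (the subspace topology inherited from the product `X → ℝ`). -/
abbrev Cp (X : Type u) [TopologicalSpace X] : Type u := {f : X → ℝ // Continuous f}

/-- The tightness of `Z` is at most `|I|` (`I` infinite): every point of the closure of a set `A`
is in the closure of a subset of `A` that is the range of a function on `I`. -/
def TightnessLE (I : Type w) (Z : Type u) [TopologicalSpace Z] : Prop :=
  ∀ (A : Set Z) (z : Z), z ∈ closure A → ∃ g : I → Z, range g ⊆ A ∧ z ∈ closure (range g)

/-- The density of `Z` is at most `|I|`. -/
def DensityLE (I : Type w) (Z : Type u) [TopologicalSpace Z] : Prop :=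
  IsEmpty Z ∨ ∃ g : I → Z, DenseRange g

/-- The weight of `Z` is at most `|I|`: there is a base of the topology indexed by `I`. -/
def WeightLE (I : Type w) (Z : Type u) [TopologicalSpace Z] : Prop :=
  ∃ B : I → Set Z, IsTopologicalBasis (range B)

/-- `Y` has a dense subspace that is the union of at most `|I|` compact sets. -/
def HasDenseUnionOfCompact (I : Type w) (Y : Type v) [TopologicalSpace Y] : Prop :=
  ∃ K : I → Set Y, (∀ i, IsCompact (K i)) ∧ Dense (⋃ i, K i)

/-- all compact subspaces of `C_p(X)` have tightness at most `|I|` -/
def TightGood (I : Type w) (X : Type u) [TopologicalSpace X] : Prop :=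
  ∀ S : Set (Cp X), IsCompact S → TightnessLE I S

/-- all compact subspaces of density at most `|I|` of `C_p(X)` have weight at most `|I|` -/
def MonolithicGood (I : Type w) (X : Type u) [TopologicalSpace X] : Prop :=
  ∀ S : Set (Cp X), IsCompact S → DensityLE I S → WeightLE I S

/-- all compact subspaces of `C_p(X)` are Frechet-Urysohn -/
def FrechetGood (X : Type u) [TopologicalSpace X] : Prop :=
  ∀ S : Set (Cp X), IsCompact S → FrechetUrysohnSpace S

/-- all separable compact subspaces of `C_p(X)` are metrizable -/
def MetrizableGood (X : Type u) [TopologicalSpace X] : Prop :=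
  ∀ S : Set (Cp X), IsCompact S → SeparableSpace S → MetrizableSpace S

open Pool.Agent.KS6_59.CP (surj_nat surj_prod)

section lemmas

variable (I : Type w) [Infinite I]

lemma dens_of_separable {Z : Type u} [TopologicalSpace Z] [SeparableSpace Z] :
    DensityLE I Z := by
  rcases isEmpty_or_nonempty Z with h | h
  · exact Or.inl h
  · obtain ⟨f, hf⟩ := surj_nat I
    refine Or.inr ⟨denseSeq Z ∘ f, ?_⟩
    rw [DenseRange, hf.range_comp]
    exact denseRange_denseSeq Z

omit [Infinite I] in
lemma separable_of_dens [Countable I] {Z : Type u} [TopologicalSpace Z] (h : DensityLE I Z) :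
    SeparableSpace Z := by
  rcases h with h | ⟨g, hg⟩
  · exact ⟨∅, countable_empty, fun z => (h.false z).elim⟩
  · exact ⟨range g, countable_range g, hg⟩

omit [Infinite I] in
lemma secondCountable_of_wt [Countable I] {Z : Type u} [TopologicalSpace Z] (h : WeightLE I Z) :
    SecondCountableTopology Z := by
  obtain ⟨B, hB⟩ := h
  exact hB.secondCountableTopology (countable_range B)

lemma tight_of_frechet {Z : Type u} [TopologicalSpace Z] [FrechetUrysohnSpace Z] :
    TightnessLE I Z := by
  intro A z hz
  obtain ⟨a, ha, hlim⟩ := mem_closure_iff_seq_limit.1 hz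
  obtain ⟨f, hf⟩ := surj_nat I
  refine ⟨a ∘ f, by rintro _ ⟨i, rfl⟩; exact ha _, ?_⟩
  rw [hf.range_comp]
  exact mem_closure_of_tendsto hlim (Eventually.of_forall fun n => ⟨n, rfl⟩)

omit [Infinite I] in
lemma union_of_dens {Y : Type v} [TopologicalSpace Y] (h : DensityLE I Y) :
    HasDenseUnionOfCompact I Y := by
  rcases h with h | ⟨g, hg⟩
  · exact ⟨fun _ => ∅, fun _ => isCompact_empty, fun y => (h.false y).elim⟩
  · refine ⟨fun i => {g i}, fun i => isCompact_singleton, ?_⟩
    have h1 : (⋃ i, ({g i} : Set Y)) = range g := by
      ext y; simp [eq_comm]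
    rw [h1]
    exact hg

omit [Infinite I] in
lemma dens_snd {Y : Type v} [TopologicalSpace Y] (h : DensityLE I (PUnit.{u + 1} × Y)) :
    DensityLE I Y := by
  rcases h with h | ⟨g, hg⟩
  · exact Or.inl ⟨fun y => h.false (PUnit.unit, y)⟩
  · have h1 : Surjective (Prod.snd : PUnit.{u + 1} × Y → Y) := fun y => ⟨(PUnit.unit, y), rfl⟩
    exact Or.inr ⟨fun i => (g i).2, h1.denseRange.comp hg continuous_snd⟩

omit [Infinite I] in
lemma sc_of_metrizable (Z : Type u) [TopologicalSpace Z] [MetrizableSpace Z] [SeparableSpace Z] :
    SecondCountableTopology Z := by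
  let := metrizableSpaceMetric Z
  exact UniformSpace.secondCountable_of_separable Z

lemma metrizableGood_iff [Countable I] {X : Type u} [TopologicalSpace X] :
    MetrizableGood X ↔ MonolithicGood I X := by
  constructor
  · intro h S hS hd
    have := separable_of_dens I hd
    have := h S hS this
    have : SecondCountableTopology S := sc_of_metrizable S
    exact Pool.Agent.KS6_59.CP.wt_of_secondCountable I
  · intro h S hS hd
    have := secondCountable_of_wt I (h S hS (dens_of_separable I))
    have : CompactSpace S := isCompact_iff_compactSpace.1 hS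
    infer_instance

end lemmas

open Pool.Agent.KS6_59.CP (tight_dense weight_dense dens_of_tight dens_of_mono
  wt_of_secondCountable)

/-- **Theorem.** Let `I` be infinite, `τ = |I|`.
(1) Let `X`, `Y` be Tychonoff, and let `Y` have a dense subspace that is the union of at most `τ`
compact sets (for example, `Y` compact). If all compact subspaces of `C_p(X)` have tightness at
most `τ`, then so have all compact subspaces of `C_p(X × Y)`. If all compact subspaces of density
at most `τ` of `C_p(X)` have weight at most `τ`, then the same is true for `C_p(X × Y)`. If `τ` is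
countable: if all compact subspaces of `C_p(X)` are Frechet-Urysohn, then so are those of
`C_p(X × Y)`, and if all separable compact subspaces of `C_p(X)` are metrizable, then so are those
of `C_p(X × Y)`.
(2) If `Y` is metrizable, then each of these statements holds for all `X` if and only if the
density of `Y` is at most `τ`. -/
theorem result (I : Type w) [Infinite I] :
    (∀ (X : Type u) [TopologicalSpace X] [T35Space X] (Y : Type v) [TopologicalSpace Y]
      [T35Space Y], HasDenseUnionOfCompact I Y →
        (TightGood I X → TightGood I (X × Y)) ∧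
        (MonolithicGood I X → MonolithicGood I (X × Y)) ∧
        (Countable I → FrechetGood X → FrechetGood (X × Y)) ∧
        (Countable I → MetrizableGood X → MetrizableGood (X × Y))) ∧
    (∀ (Y : Type v) [TopologicalSpace Y] [MetrizableSpace Y],
      ((∀ (X : Type u) [TopologicalSpace X] [T35Space X],
        TightGood I X → TightGood I (X × Y)) ↔ DensityLE I Y) ∧
      ((∀ (X : Type u) [TopologicalSpace X] [T35Space X],
        MonolithicGood I X → MonolithicGood I (X × Y)) ↔ DensityLE I Y) ∧
      (Countable I → ((∀ (X : Type u) [TopologicalSpace X] [T35Space X],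
        FrechetGood X → FrechetGood (X × Y)) ↔ DensityLE I Y)) ∧
      (Countable I → ((∀ (X : Type u) [TopologicalSpace X] [T35Space X],
        MetrizableGood X → MetrizableGood (X × Y)) ↔ DensityLE I Y))) := by
  have hp : ∀ (S : Set (Cp PUnit.{u + 1})), SecondCountableTopology S := fun S => inferInstance
  refine ⟨fun X _ _ Y _ _ hY => ⟨?_, ?_, ?_, ?_⟩, fun Y _ _ => ?_⟩
  · obtain ⟨K, hK, hd⟩ := hY
    exact fun h S hS => tight_dense I hK hd h S hS
  · obtain ⟨K, hK, hd⟩ := hY
    exact fun h S hS hdS => weight_dense I hK hd h S hS hdS
  · obtain ⟨K, hK, hd⟩ := hY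
    intro hI h S hS
    exact DenseSigmaCompactFactor.result.2.1 X h Y
      ⟨_, isSigmaCompact_iUnion_of_isCompact K hK, hd⟩ S hS
  · obtain ⟨K, hK, hd⟩ := hY
    intro hI h
    rw [metrizableGood_iff I] at h ⊢
    exact fun S hS hdS => weight_dense I hK hd h S hS hdS
  let := metrizableSpaceMetric Y
  have h35 : T35Space Y := inferInstance
  refine ⟨⟨fun h => ?_, fun h X _ _ hX S hS => ?_⟩, ⟨fun h => ?_, fun h X _ _ hX S hS hdS => ?_⟩,
    fun hI => ⟨fun h => ?_, fun h X _ _ hX S hS => ?_⟩, fun hI => ⟨fun h => ?_, fun h X _ _ hX => ?_⟩⟩
  · exact dens_snd I (dens_of_tight I (h PUnit fun S _ => tight_of_frechet I))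
  · obtain ⟨K, hK, hd⟩ := union_of_dens I h
    exact tight_dense I hK hd hX S hS
  · exact dens_snd I (dens_of_mono I (h PUnit fun S _ _ => wt_of_secondCountable I))
  · obtain ⟨K, hK, hd⟩ := union_of_dens I h
    exact weight_dense I hK hd hX S hS hdS
  · have h1 := h PUnit fun S _ => inferInstance
    exact dens_snd I (dens_of_tight I fun S hS => by
      have := h1 S hS
      exact tight_of_frechet I)
  · obtain ⟨K, hK, hd⟩ := union_of_dens I h
    exact DenseSigmaCompactFactor.result.2.1 X hX Y
      ⟨_, isSigmaCompact_iUnion_of_isCompact K hK, hd⟩ S hS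
  · have h1 : MetrizableGood (PUnit.{u + 1} × Y) := h PUnit fun S _ _ => inferInstance
    rw [metrizableGood_iff I] at h1
    exact dens_snd I (dens_of_mono I h1)
  · obtain ⟨K, hK, hd⟩ := union_of_dens I h
    rw [metrizableGood_iff I] at hX ⊢
    exact fun S hS hdS => weight_dense I hK hd hX S hS hdS

end Pool.Agent.Results.MP_e70507_gt.AllCardinals
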